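import Pool.Agent.Q285.GL.One

/-!
Artin's case: primitive roots.
-/

set_option autoImplicit false

namespace Pool.Agent.Q285.GL

open Finset

/-- `n` is a primitive root modulo `q` -/
def PrimRoot (q : ℕ) (n : ℤ) : Prop :=
  ∃ u : (ZMod q)ˣ, (u : ZMod q) = (n : ZMod q) ∧ orderOf u = q - 1

open Classical in
/-- the number of the primes `q ≤ x` modulo which `n` is a primitive root -/
noncomputable def artin (n : ℤ) (x : ℕ) : ℕ :=
  ((range (x + 1)).filter fun q => q.Prime ∧ PrimRoot q n).card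

lemma primRoot_iff {q : ℕ} (hq : q.Prime) {n : ℤ} (hn : n ≠ 0) :
    Cond (fun _ j => j = 1) (gen1 ⊥ n) q ↔ PrimRoot q n := by
  have : Fact q.Prime := ⟨hq⟩
  have e : gen ⊥ (fun _ : Unit => n) = gen1 ⊥ n := by
    unfold gen gen1
    congr 2
    ext u
    simp
  have hbot : ∀ u ∈ (⊥ : Subgroup ℚˣ), padicValRat q (u : ℚ) = 0 := by
    intro u hu
    rw [Subgroup.mem_bot.1 hu]
    simp
  have hcard : Nat.card (ZMod q)ˣ = q - 1 := by
    rw [Nat.card_eq_fintype_card, ZMod.card_units_eq_totient, Nat.totient_prime hq]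
  have hred : reduction (⊥ : Subgroup ℚˣ) q = ⊥ := by
    unfold reduction
    rw [Subgroup.closure_eq_bot_iff]
    rintro u ⟨w, hw, h1⟩
    rw [Subgroup.mem_bot.1 hw] at h1
    rw [Set.mem_singleton_iff]
    ext
    simpa using h1.symm
  have hzp : ∀ u : (ZMod q)ˣ, (u : ZMod q) = (n : ZMod q) →
      Subgroup.closure {v : (ZMod q)ˣ | ∃ _ : Unit, (v : ZMod q) = (n : ZMod q)} =
        Subgroup.zpowers u := by
    intro u hu
    rw [Subgroup.zpowers_eq_closure]
    congr 1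
    ext v
    simp only [Set.mem_ofPred_eq, Set.mem_singleton_iff, exists_const]
    rw [← hu]
    exact ⟨fun h => Units.ext h, fun h => by rw [h]⟩
  have hdvd : ∀ h : ¬ (q : ℤ) ∣ n, ((n : ℤ) : ZMod q) ≠ 0 := fun h => by
    rw [Ne, ZMod.intCast_zmod_eq_zero_iff_dvd]
    exact h
  have htop : ∀ u : (ZMod q)ˣ, Subgroup.zpowers u = ⊤ ↔ orderOf u = q - 1 := by
    intro u
    rw [← Nat.card_zpowers, ← hcard, Subgroup.card_eq_iff_eq_top]
  constructor
  · rintro ⟨h1, h2⟩
    have h3 : ¬ (q : ℤ) ∣ n := gen_not_val ⊥ (fun _ : Unit => n) (fun _ => hn)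
      (by rw [e]; exact h1) ()
    refine ⟨Units.mk0 _ (hdvd h3), rfl, ?_⟩
    rw [← htop, ← hzp _ rfl]
    have h4 := reduction_gen ⊥ (fun _ : Unit => n) (fun _ => h3) hbot
    rw [e, hred, bot_sup_eq] at h4
    rw [← h4]
    exact Subgroup.index_eq_one.1 h2
  · rintro ⟨u, hu, h1⟩
    have h3 : ¬ (q : ℤ) ∣ n := by
      intro h
      rw [← ZMod.intCast_zmod_eq_zero_iff_dvd] at h
      rw [h] at hu
      exact u.ne_zero hu
    have h4 := reduction_gen ⊥ (fun _ : Unit => n) (fun _ => h3) hbot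
    have h5 := (gen_val ⊥ (fun _ : Unit => n) fun _ => h3).2 hbot
    rw [e] at h5
    rw [e, hred, bot_sup_eq, hzp u hu, (htop u).2 h1] at h4
    exact ⟨h5, by rw [h4]; exact Subgroup.index_top⟩

lemma cnt_artin {n : ℤ} (hn : n ≠ 0) (x : ℕ) : cnt (fun _ j => j = 1) (gen1 ⊥ n) x = artin n x := by
  classical
  unfold cnt artin
  congr 1
  refine filter_congr fun q _ => ?_
  refine and_congr_right fun hq => ?_
  exact primRoot_iff hq hn

lemma dens_artin {q : ℕ} (hq : q.Prime) :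
    dens (fun _ j => j = 1) ⊥ q = (Nat.totient (q - 1) : ℝ) / q := by
  classical
  have : Fact q.Prime := ⟨hq⟩
  have hcard : Fintype.card (ZMod q)ˣ = q - 1 := by
    rw [ZMod.card_units_eq_totient, Nat.totient_prime hq]
  unfold dens
  congr 2
  have h1 := IsCyclic.card_orderOf_eq_totient (α := (ZMod q)ˣ) (d := q - 1)
    (by rw [hcard])
  rw [← h1]
  refine card_nbij' (i := fun n : ℕ => if h : ((n : ℕ) : ZMod q) ≠ 0 then Units.mk0 _ h else 1)
    (j := fun u : (ZMod q)ˣ => (u : ZMod q).val) ?_ ?_ ?_ ?_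
  · intro n hn
    rw [mem_coe, mem_filter, mem_Ico] at hn
    have h2 := (primRoot_iff hq (n := (n : ℤ)) (by omega)).1 hn.2
    obtain ⟨u, hu, h3⟩ := h2
    have h4 : ((n : ℕ) : ZMod q) ≠ 0 := by
      rw [Int.cast_natCast] at hu
      rw [← hu]
      exact u.ne_zero
    rw [mem_coe, mem_filter]
    simp only
    rw [dif_pos h4]
    refine ⟨mem_univ _, ?_⟩
    have : Units.mk0 _ h4 = u := by
      ext
      rw [Units.val_mk0, hu, Int.cast_natCast]
    rw [this, h3]
  · intro u hu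
    rw [mem_coe, mem_filter] at hu
    rw [mem_coe, mem_filter, mem_Ico]
    have hlt : (u : ZMod q).val < q := ZMod.val_lt _
    have hpos : (u : ZMod q).val ≠ 0 := by
      rw [Ne, ZMod.val_eq_zero]
      exact u.ne_zero
    refine ⟨⟨Nat.one_le_iff_ne_zero.2 hpos, hlt⟩, ?_⟩
    refine (primRoot_iff hq (by exact_mod_cast hpos)).2 ⟨u, ?_, hu.2⟩
    rw [Int.cast_natCast, ZMod.natCast_val, ZMod.cast_id', id_eq]
  · intro n hn
    rw [mem_coe, mem_filter, mem_Ico] at hn
    have h4 : ((n : ℕ) : ZMod q) ≠ 0 := by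
      rw [Ne, ZMod.natCast_eq_zero_iff]
      intro h
      exact absurd (Nat.le_of_dvd hn.1.1 h) (not_le.2 hn.1.2)
    simp only
    rw [dif_pos h4, Units.val_mk0]
    exact ZMod.val_cast_of_lt hn.1.2
  · intro u _
    have h4 : (((u : ZMod q).val : ℕ) : ZMod q) ≠ 0 := by
      rw [ZMod.natCast_val, ZMod.cast_id', id_eq]
      exact u.ne_zero
    simp only
    rw [dif_pos h4]
    ext
    rw [Units.val_mk0, ZMod.natCast_val, ZMod.cast_id', id_eq]

lemma mass_artin (x : ℕ) : mass (fun _ j => j = 1) ⊥ x =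
    ∑ q ∈ (range (x + 1)).filter Nat.Prime, 1 / (q : ℝ) := by
  unfold mass
  refine sum_congr ?_ fun _ _ => rfl
  ext q
  simp only [mem_filter]
  refine and_congr_right fun _ => ?_
  constructor
  · intro h
    exact h.1
  · intro h
    refine ⟨h, ?_, trivial⟩
    intro u hu
    rw [Subgroup.mem_bot.1 hu]
    simp

lemma mass_tendsto (V : ℝ) : ∃ x₀ : ℕ, ∀ x : ℕ, x₀ ≤ x → V ≤ mass (fun _ j => j = 1) ⊥ x := by
  classical
  have h1 := not_summable_iff_tendsto_nat_atTop_of_nonneg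
    (f := Set.indicator {p : ℕ | p.Prime} (fun n : ℕ => (1 : ℝ) / n)) (fun n => by
      unfold Set.indicator
      split_ifs
      · positivity
      · exact le_rfl)
  have h2 := h1.1 not_summable_one_div_on_primes
  have h3 := (h2.comp (Filter.tendsto_add_atTop_nat 1)).eventually_ge_atTop V
  obtain ⟨x₀, hx⟩ := Filter.eventually_atTop.1 h3
  refine ⟨x₀, fun x hxx => ?_⟩
  rw [mass_artin, sum_filter]
  refine (hx x hxx).trans (le_of_eq ?_)
  simp only [Function.comp_apply]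
  refine sum_congr rfl fun q _ => ?_
  unfold Set.indicator
  simp only [Set.mem_ofPred_eq]

theorem law_artin (ε : ℝ) (hε : 0 < ε) : ∃ (x₀ K : ℕ), ∀ x : ℕ, x₀ ≤ x → ∀ (m : ℤ) (L : ℕ),
    x ^ K ≤ L → ∀ y : ℝ, |share m L (fun n => (artin n x : ℝ) ≤
        (∑ q ∈ (range (x + 1)).filter Nat.Prime, (Nat.totient (q - 1) : ℝ) / q) + y * Real.sqrt
          (∑ q ∈ (range (x + 1)).filter Nat.Prime, (Nat.totient (q - 1) : ℝ) / q *
            (1 - (Nat.totient (q - 1) : ℝ) / q))) - Phi y| ≤ ε := by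
  classical
  obtain ⟨V₁, K, h⟩ := law_one (ε / 2) (half_pos hε)
  obtain ⟨x₀, hx₀⟩ := mass_tendsto V₁
  refine ⟨max x₀ (⌈2 / ε⌉₊ + 1), K + 1, fun x hx m L hL y => ?_⟩
  have hx1 : 1 ≤ x := le_trans (by omega) ((le_max_right _ _).trans hx)
  have hxε : 2 / ε ≤ x := by
    have h1 : ⌈2 / ε⌉₊ ≤ x := by
      have := (le_max_right x₀ (⌈2 / ε⌉₊ + 1)).trans hx
      omega
    exact (Nat.le_ceil _).trans (by exact_mod_cast h1)
  have hLx : (x : ℝ) ≤ L := by
    have : x ^ 1 ≤ x ^ (K + 1) := Nat.pow_le_pow_right hx1 (by omega)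
    rw [pow_one] at this
    exact_mod_cast this.trans hL
  have hL0 : (0 : ℝ) < L := by
    have : (1 : ℝ) ≤ x := by exact_mod_cast hx1
    linarith
  have hLK : (x : ℝ) ^ K ≤ L := by
    have : x ^ K ≤ x ^ (K + 1) := Nat.pow_le_pow_right hx1 (by omega)
    exact_mod_cast this.trans hL
  have key := h ⊥ (fun _ j => j = 1) x (hx₀ x ((le_max_left _ _).trans hx)) m L hLK y
  have e1 : ∑ q ∈ (range (x + 1)).filter Nat.Prime, dens (fun _ j => j = 1) ⊥ q =
      ∑ q ∈ (range (x + 1)).filter Nat.Prime, (Nat.totient (q - 1) : ℝ) / q :=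
    sum_congr rfl fun q hq => dens_artin (mem_filter.1 hq).2
  have e2 : ∑ q ∈ (range (x + 1)).filter Nat.Prime, dens (fun _ j => j = 1) ⊥ q *
      (1 - dens (fun _ j => j = 1) ⊥ q) =
      ∑ q ∈ (range (x + 1)).filter Nat.Prime, (Nat.totient (q - 1) : ℝ) / q *
        (1 - (Nat.totient (q - 1) : ℝ) / q) :=
    sum_congr rfl fun q hq => by rw [dens_artin (mem_filter.1 hq).2]
  rw [e1, e2] at key
  set T : ℝ := (∑ q ∈ (range (x + 1)).filter Nat.Prime, (Nat.totient (q - 1) : ℝ) / q) +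
    y * Real.sqrt (∑ q ∈ (range (x + 1)).filter Nat.Prime, (Nat.totient (q - 1) : ℝ) / q *
        (1 - (Nat.totient (q - 1) : ℝ) / q)) with hT
  have hcmp : |share m L (fun n => (artin n x : ℝ) ≤ T) -
      share m L (fun n => (cnt (fun _ j => j = 1) (gen1 ⊥ n) x : ℝ) ≤ T)| ≤ ε / 2 := by
    unfold share
    rw [← sub_div, abs_div, abs_of_pos hL0, div_le_iff₀ hL0]
    have aux : ∀ A B : Finset ℤ, (∀ n, n ≠ 0 → (n ∈ A ↔ n ∈ B)) → A.card ≤ B.card + 1 := by
      intro A B hAB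
      calc A.card ≤ (insert 0 B).card := by
            refine card_le_card fun n hn => ?_
            rw [mem_insert]
            by_cases h0 : n = 0
            · exact Or.inl h0
            · exact Or.inr ((hAB n h0).1 hn)
        _ ≤ B.card + 1 := card_insert_le _ _
    have h9 : ∀ n : ℤ, n ≠ 0 →
        (n ∈ (Ico m (m + L)).filter (fun n => (artin n x : ℝ) ≤ T) ↔
        n ∈ (Ico m (m + L)).filter
          (fun n => (cnt (fun _ j => j = 1) (gen1 ⊥ n) x : ℝ) ≤ T)) := by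
      intro n hn
      rw [mem_filter, mem_filter, cnt_artin hn]
    have h1 := aux _ _ h9
    have h2 := aux _ _ (fun n hn => (h9 n hn).symm)
    have h3 : (1 : ℝ) ≤ ε / 2 * L := by
      calc (1 : ℝ) = ε / 2 * (2 / ε) := by field_simp
        _ ≤ ε / 2 * L := mul_le_mul_of_nonneg_left (hxε.trans hLx) (by positivity)
    have h1' : ((((Ico m (m + L)).filter (fun n => (artin n x : ℝ) ≤ T)).card : ℕ) : ℝ) ≤
      ((((Ico m (m + L)).filter
          (fun n => (cnt (fun _ j => j = 1) (gen1 ⊥ n) x : ℝ) ≤ T)).card : ℕ) : ℝ) + 1 := by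
      exact_mod_cast h1
    have h2' : ((((Ico m (m + L)).filter
          (fun n => (cnt (fun _ j => j = 1) (gen1 ⊥ n) x : ℝ) ≤ T)).card : ℕ) : ℝ) ≤
      ((((Ico m (m + L)).filter (fun n => (artin n x : ℝ) ≤ T)).card : ℕ) : ℝ) + 1 := by
      exact_mod_cast h2
    rw [abs_le]
    constructor <;> linarith
  calc |share m L (fun n => (artin n x : ℝ) ≤ T) - Phi y| ≤
        |share m L (fun n => (artin n x : ℝ) ≤ T) -
          share m L (fun n => (cnt (fun _ j => j = 1) (gen1 ⊥ n) x : ℝ) ≤ T)| +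
        |share m L (fun n => (cnt (fun _ j => j = 1) (gen1 ⊥ n) x : ℝ) ≤ T) - Phi y| :=
          abs_sub_le _ _ _
    _ ≤ ε / 2 + ε / 2 := add_le_add hcmp key
    _ = ε := add_halves ε

end Pool.Agent.Q285.GL
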