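import Pool.Agent.Q285.GL.Red
import Pool.Agent.Q282.LT.Shift

/-!
The normal law for the indices modulo primes of the groups generated by values of polynomials.
-/

set_option autoImplicit false

namespace Pool.Agent.Q285.GL

open Finset

/-- The number `w(q, [(ℤ/q)ˣ : W mod q])` if `W` consists of `q`-units, and `0` otherwise. -/
noncomputable def weight (w : ℕ → ℕ → ℝ) (W : Subgroup ℚˣ) (q : ℕ) : ℝ :=
  open Classical in
  if ∀ u ∈ W, padicValRat q (u : ℚ) = 0 then w q (reduction W q).index else 0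

/-- `weight` for the group generated by `W₀` and the integers `f_i(ν)` if none of them is divisible by
`q`, and `0` otherwise; a function of `ν` modulo `q`. -/
noncomputable def localWeight (w : ℕ → ℕ → ℝ) (W₀ : Subgroup ℚˣ) {d r : ℕ}
    (f : Fin r → MvPolynomial (Fin d) ℤ) (q : ℕ) (ν : Fin d → ℤ) : ℝ :=
  open Classical in
  if ∀ i, ¬ (q : ℤ) ∣ MvPolynomial.eval ν (f i) then
    weight w (gen W₀ fun i => MvPolynomial.eval ν (f i)) q else 0

lemma weight_abs {w : ℕ → ℕ → ℝ} (hw : ∀ q j, |w q j| ≤ 1) (W : Subgroup ℚˣ) (q : ℕ) :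
    |weight w W q| ≤ 1 := by
  unfold weight
  split_ifs
  · exact hw _ _
  · rw [abs_zero]
    exact zero_le_one

lemma localWeight_abs {w : ℕ → ℕ → ℝ} (hw : ∀ q j, |w q j| ≤ 1) (W₀ : Subgroup ℚˣ) {d r : ℕ}
    (f : Fin r → MvPolynomial (Fin d) ℤ) (q : ℕ) (ν : Fin d → ℤ) : |localWeight w W₀ f q ν| ≤ 1 := by
  unfold localWeight
  split_ifs
  · exact weight_abs hw _ _
  · rw [abs_zero]
    exact zero_le_one

lemma eval_congr {d : ℕ} (p : ℕ) (a : MvPolynomial (Fin d) ℤ) {ν ν' : Fin d → ℤ}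
    (h : ∀ i, (p : ℤ) ∣ ν i - ν' i) :
    (p : ℤ) ∣ MvPolynomial.eval ν a - MvPolynomial.eval ν' a := by
  induction a using MvPolynomial.induction_on with
  | C c => simp
  | add f g hf hg =>
    rw [map_add, map_add, add_sub_add_comm]
    exact dvd_add hf hg
  | mul_X f i hf =>
    rw [map_mul, map_mul, MvPolynomial.eval_X, MvPolynomial.eval_X]
    have e : MvPolynomial.eval ν f * ν i - MvPolynomial.eval ν' f * ν' i =
      (MvPolynomial.eval ν f - MvPolynomial.eval ν' f) * ν i +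
        (ν i - ν' i) * MvPolynomial.eval ν' f := by ring
    rw [e]
    exact dvd_add (hf.mul_right _) ((h i).mul_right _)

lemma weight_gen {w : ℕ → ℕ → ℝ} {W₀ : Subgroup ℚˣ} {ι : Type*} {a b : ι → ℤ} {p : ℕ}
    [hp : Fact p.Prime] (ha : ∀ i, ¬ (p : ℤ) ∣ a i) (h : ∀ i, (p : ℤ) ∣ a i - b i) :
    weight w (gen W₀ a) p = weight w (gen W₀ b) p := by
  have hb : ∀ i, ¬ (p : ℤ) ∣ b i := fun i hi => ha i ((dvd_iff_dvd_of_dvd_sub (h i)).2 hi)
  have e1 : ∀ i, ((a i : ℤ) : ZMod p) = (b i : ZMod p) := by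
    intro i
    have := (ZMod.intCast_zmod_eq_zero_iff_dvd (a i - b i) p).2 (h i)
    push_cast at this
    exact sub_eq_zero.1 this
  unfold weight
  rw [gen_val W₀ a ha, gen_val W₀ b hb]
  split_ifs with h1
  · rw [reduction_gen W₀ a ha h1, reduction_gen W₀ b hb h1]
    simp only [e1]
  · rfl

lemma localWeight_per (w : ℕ → ℕ → ℝ) (W₀ : Subgroup ℚˣ) {d r : ℕ}
    (f : Fin r → MvPolynomial (Fin d) ℤ) {q : ℕ} (hq : q.Prime) :
    Q282LT.ZPer q (localWeight w W₀ f q) := by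
  intro ν ν' h
  have : Fact q.Prime := ⟨hq⟩
  have h1 : ∀ i, (q : ℤ) ∣ MvPolynomial.eval ν (f i) - MvPolynomial.eval ν' (f i) :=
    fun i => eval_congr q (f i) h
  unfold localWeight
  by_cases h2 : ∀ i, ¬ (q : ℤ) ∣ MvPolynomial.eval ν (f i)
  · have h3 : ∀ i, ¬ (q : ℤ) ∣ MvPolynomial.eval ν' (f i) := fun i hi =>
      h2 i ((dvd_iff_dvd_of_dvd_sub (h1 i)).2 hi)
    rw [if_pos h2, if_pos h3]
    exact weight_gen h2 h1
  · have h3 : ¬ ∀ i, ¬ (q : ℤ) ∣ MvPolynomial.eval ν' (f i) := fun hi =>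
      h2 fun i hi' => hi i ((dvd_iff_dvd_of_dvd_sub (h1 i)).1 hi')
    rw [if_neg h2, if_neg h3]

/-- for `ν` with nonzero values the local weight is the weight -/
lemma localWeight_eq (w : ℕ → ℕ → ℝ) (W₀ : Subgroup ℚˣ) {d r : ℕ}
    (f : Fin r → MvPolynomial (Fin d) ℤ) {q : ℕ} (hq : q.Prime) {ν : Fin d → ℤ}
    (h : ∀ i, MvPolynomial.eval ν (f i) ≠ 0) :
    localWeight w W₀ f q ν = weight w (gen W₀ fun i => MvPolynomial.eval ν (f i)) q := by
  have : Fact q.Prime := ⟨hq⟩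
  unfold localWeight
  split_ifs with h1
  · rfl
  · unfold weight
    rw [if_neg]
    intro h2
    exact h1 fun i => gen_not_val W₀ _ h h2 i

/-- if one of the values is zero then all local weights are zero -/
lemma localWeight_zero (w : ℕ → ℕ → ℝ) (W₀ : Subgroup ℚˣ) {d r : ℕ}
    (f : Fin r → MvPolynomial (Fin d) ℤ) (q : ℕ) {ν : Fin d → ℤ}
    (h : ¬ ∀ i, MvPolynomial.eval ν (f i) ≠ 0) : localWeight w W₀ f q ν = 0 := by
  unfold localWeight
  rw [if_neg]
  intro h1
  apply h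
  intro i h2
  exact h1 i (by rw [h2]; exact dvd_zero _)

/-- The sum over the primes `q ≤ x` of the weights of the group generated by `W₀` and the `f_i(ν)`; it is
`0` if one of the `f_i(ν)` is zero. -/
noncomputable def total (w : ℕ → ℕ → ℝ) (W₀ : Subgroup ℚˣ) {d r : ℕ}
    (f : Fin r → MvPolynomial (Fin d) ℤ) (x : ℕ) (ν : Fin d → ℤ) : ℝ :=
  open Classical in
  if ∀ i, MvPolynomial.eval ν (f i) ≠ 0 then ∑ q ∈ (range (x + 1)).filter Nat.Prime,
    weight w (gen W₀ fun i => MvPolynomial.eval ν (f i)) q else 0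

lemma total_eq (w : ℕ → ℕ → ℝ) (W₀ : Subgroup ℚˣ) {d r : ℕ}
    (f : Fin r → MvPolynomial (Fin d) ℤ) (x : ℕ) (ν : Fin d → ℤ) :
    total w W₀ f x ν = ∑ q ∈ (range (x + 1)).filter Nat.Prime, localWeight w W₀ f q ν := by
  unfold total
  split_ifs with h
  · exact sum_congr rfl fun q hq => (localWeight_eq w W₀ f (mem_filter.1 hq).2 h).symm
  · exact (sum_eq_zero fun q _ => localWeight_zero w W₀ f q h).symm

/-- The average of the `k`-th powers of the local weights over the residues modulo `q`. -/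
noncomputable def average (w : ℕ → ℕ → ℝ) (W₀ : Subgroup ℚˣ) {d r : ℕ}
    (f : Fin r → MvPolynomial (Fin d) ℤ) (k q : ℕ) : ℝ :=
  (∑ ν ∈ Fintype.piFinset fun _ : Fin d => range q, localWeight w W₀ f q (fun i => (ν i : ℤ)) ^ k) /
    (q : ℝ) ^ d

/-- The mean of the model: sum of the averages over the primes `q ≤ x`. -/
noncomputable def modelMean (w : ℕ → ℕ → ℝ) (W₀ : Subgroup ℚˣ) {d r : ℕ}
    (f : Fin r → MvPolynomial (Fin d) ℤ) (x : ℕ) : ℝ :=
  ∑ q ∈ (range (x + 1)).filter Nat.Prime, average w W₀ f 1 q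

/-- The variance of the model. -/
noncomputable def modelVariance (w : ℕ → ℕ → ℝ) (W₀ : Subgroup ℚˣ) {d r : ℕ}
    (f : Fin r → MvPolynomial (Fin d) ℤ) (x : ℕ) : ℝ :=
  ∑ q ∈ (range (x + 1)).filter Nat.Prime, (average w W₀ f 2 q - average w W₀ f 1 q ^ 2)

/-- The box of the integer vectors `ν` with `m i ≤ ν i < m i + L i`. -/
noncomputable def box {d : ℕ} (m : Fin d → ℤ) (L : Fin d → ℕ) : Finset (Fin d → ℤ) :=
  Fintype.piFinset fun i => Ico (m i) (m i + L i)

/-- The proportion of the `ν` of the box with the property `P`. -/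
noncomputable def proportion {d : ℕ} (m : Fin d → ℤ) (L : Fin d → ℕ) (P : (Fin d → ℤ) → Prop) : ℝ :=
  open Classical in (((box m L).filter P).card : ℝ) / ∏ i, (L i : ℝ)

/-- The distribution function of the standard normal law. -/
noncomputable def Phi (y : ℝ) : ℝ := (ProbabilityTheory.gaussianReal 0 1).real (Set.Iic y)

theorem law (ε : ℝ) (hε : 0 < ε) : ∃ (V₀ C₀ : ℝ) (K : ℕ), 0 < V₀ ∧ 0 < C₀ ∧
    ∀ (d r : ℕ) (f : Fin r → MvPolynomial (Fin d) ℤ) (W₀ : Subgroup ℚˣ) (w : ℕ → ℕ → ℝ),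
      (∀ q j, |w q j| ≤ 1) →
      ∀ x : ℕ, V₀ ≤ modelVariance w W₀ f x → ∀ (m : Fin d → ℤ) (L : Fin d → ℕ),
        (∀ i, C₀ * (d + 1) * (x : ℝ) ^ K ≤ L i) → ∀ y : ℝ,
          |proportion m L (fun ν => total w W₀ f x ν ≤
            modelMean w W₀ f x + y * Real.sqrt (modelVariance w W₀ f x)) - Phi y| ≤ ε := by
  classical
  obtain ⟨V₀, C₀, K, hV₀, hC₀, h⟩ := Q282LT.gauss_z ε hε
  refine ⟨V₀, C₀, K, hV₀, hC₀, ?_⟩
  intro d r f W₀ w hw x hV m L hL y
  have h1 : ∀ p, Q282LT.avg d p (localWeight w W₀ f p) = average w W₀ f 1 p := by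
    intro p
    unfold Q282LT.avg average
    simp only [pow_one]
  have h2 : ∀ p, Q282LT.avg d p (fun ν => localWeight w W₀ f p ν ^ 2) = average w W₀ f 2 p :=
    fun p => rfl
  have hI : ∀ p ∈ (range (x + 1)).filter Nat.Prime, p.Prime ∧ p ≤ x := by
    intro p hp
    rw [mem_filter, mem_range] at hp
    exact ⟨hp.2, by omega⟩
  have h3 := h d ((range (x + 1)).filter Nat.Prime) (fun p => p) (localWeight w W₀ f)
    (fun p hp => (hI p hp).1.one_lt.le)
    (fun p hp p' hp' hne => (Nat.coprime_primes (hI p hp).1 (hI p' hp').1).2 hne)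
    (fun p hp => localWeight_per w W₀ f (hI p hp).1)
    (fun p _ ν => localWeight_abs hw W₀ f p ν)
    (by
      refine hV.trans (le_of_eq ?_)
      unfold modelVariance
      refine sum_congr rfl fun p _ => ?_
      rw [h1, h2])
    x (fun p hp => (hI p hp).2)
    (by
      calc ((range (x + 1)).filter Nat.Prime).card ≤ (Icc 1 x).card := by
            refine card_le_card fun p hp => ?_
            rw [mem_Icc]
            exact ⟨(hI p hp).1.one_lt.le, (hI p hp).2⟩
        _ = x := by rw [Nat.card_Icc, Nat.add_sub_cancel])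
    m L hL y
  simp only [h1, h2] at h3
  unfold proportion Phi
  have h4 : ((box m L).filter fun ν => total w W₀ f x ν ≤
      modelMean w W₀ f x + y * Real.sqrt (modelVariance w W₀ f x)) =
      (Q282LT.zbox m L).filter fun ν =>
        ∑ p ∈ (range (x + 1)).filter Nat.Prime, localWeight w W₀ f p ν ≤
        ∑ p ∈ (range (x + 1)).filter Nat.Prime, average w W₀ f 1 p +
        y * Real.sqrt (∑ p ∈ (range (x + 1)).filter Nat.Prime,
          (average w W₀ f 2 p - average w W₀ f 1 p ^ 2)) := by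
    unfold box Q282LT.zbox modelMean modelVariance
    simp only [total_eq]
  have h5 : ((((box m L).filter fun ν => total w W₀ f x ν ≤
      modelMean w W₀ f x + y * Real.sqrt (modelVariance w W₀ f x)).card : ℕ) : ℝ) =
      ((((Q282LT.zbox m L).filter fun ν =>
        ∑ p ∈ (range (x + 1)).filter Nat.Prime, localWeight w W₀ f p ν ≤
        ∑ p ∈ (range (x + 1)).filter Nat.Prime, average w W₀ f 1 p +
        y * Real.sqrt (∑ p ∈ (range (x + 1)).filter Nat.Prime,
          (average w W₀ f 2 p - average w W₀ f 1 p ^ 2))).card : ℕ) : ℝ) := by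
    rw [h4]
  rw [← h5] at h3
  exact h3

end Pool.Agent.Q285.GL
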