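import Pool.Agent.Q285.GL.Law

/-!
The case of the groups generated by a fixed group and one integer `n`.
-/

set_option autoImplicit false

namespace Pool.Agent.Q285.GL

open Finset

/-- the group generated by `W₀` and the integer `n` (if `n` is not zero) -/
def gen1 (W₀ : Subgroup ℚˣ) (n : ℤ) : Subgroup ℚˣ :=
  W₀ ⊔ Subgroup.closure {u : ℚˣ | (u : ℚ) = (n : ℚ)}

/-- the variable -/
noncomputable def fX : Fin 1 → MvPolynomial (Fin 1) ℤ := fun _ => MvPolynomial.X 0

lemma gen_fX (W₀ : Subgroup ℚˣ) (ν : Fin 1 → ℤ) :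
    (gen W₀ fun i => MvPolynomial.eval ν (fX i)) = gen1 W₀ (ν 0) := by
  unfold gen gen1 fX
  congr 2
  ext u
  simp

/-- a property of the index at `q` which holds for the index `1` -/
def Cond (S : ℕ → ℕ → Prop) (W : Subgroup ℚˣ) (q : ℕ) : Prop :=
  (∀ u ∈ W, padicValRat q (u : ℚ) = 0) ∧ S q (reduction W q).index

open Classical in
/-- the indicator function of `S` as weight -/
noncomputable def wS (S : ℕ → ℕ → Prop) : ℕ → ℕ → ℝ := fun q j => if S q j then 1 else 0

lemma weight_wS (S : ℕ → ℕ → Prop) (W : Subgroup ℚˣ) (q : ℕ) [Decidable (Cond S W q)] :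
    weight (wS S) W q = if Cond S W q then 1 else 0 := by
  classical
  unfold weight wS
  by_cases h : Cond S W q
  · rw [if_pos h, if_pos h.1, if_pos h.2]
  · rw [if_neg h]
    by_cases h1 : ∀ u ∈ W, padicValRat q (u : ℚ) = 0
    · rw [if_pos h1, if_neg fun h2 => h ⟨h1, h2⟩]
    · rw [if_neg h1]

open Classical in
/-- the number of primes `q ≤ x` with the property `S` for `W` -/
noncomputable def cnt (S : ℕ → ℕ → Prop) (W : Subgroup ℚˣ) (x : ℕ) : ℕ :=
  ((range (x + 1)).filter fun q => q.Prime ∧ Cond S W q).card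

open Classical in
/-- the proportion of the residues `n` modulo `q` with the property `S` for `⟨W₀, n⟩` at `q` -/
noncomputable def dens (S : ℕ → ℕ → Prop) (W₀ : Subgroup ℚˣ) (q : ℕ) : ℝ :=
  (((Ico 1 q).filter fun n : ℕ => Cond S (gen1 W₀ n) q).card : ℝ) / q

lemma total_fX (S : ℕ → ℕ → Prop) (W₀ : Subgroup ℚˣ) (x : ℕ) (ν : Fin 1 → ℤ) (h : ν 0 ≠ 0) :
    total (wS S) W₀ fX x ν = cnt S (gen1 W₀ (ν 0)) x := by
  classical
  unfold total
  rw [if_pos]
  · unfold cnt
    rw [gen_fX, ← filter_filter, card_filter]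
    push_cast
    refine sum_congr rfl fun q _ => ?_
    rw [weight_wS]
  · intro i
    unfold fX
    rw [MvPolynomial.eval_X]
    exact h

lemma average_fX (S : ℕ → ℕ → Prop) (W₀ : Subgroup ℚˣ) {k q : ℕ} (hq : q.Prime) (hk : 0 < k) :
    average (wS S) W₀ fX k q = dens S W₀ q := by
  classical
  have : Fact q.Prime := ⟨hq⟩
  unfold average dens
  rw [pow_one]
  congr 1
  rw [card_filter]
  push_cast
  have e0 : ∑ ν ∈ Fintype.piFinset fun _ : Fin 1 => range q,
      localWeight (wS S) W₀ fX q (fun i => (ν i : ℤ)) ^ k =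
      ∑ n ∈ range q, localWeight (wS S) W₀ fX q (fun _ => (n : ℤ)) ^ k := by
    refine sum_nbij' (fun ν => ν 0) (fun n _ => n) ?_ ?_ ?_ ?_ ?_
    · intro ν hν
      exact Fintype.mem_piFinset.1 hν 0
    · intro n hn
      exact Fintype.mem_piFinset.2 fun _ => hn
    · intro ν _
      funext i
      rw [Subsingleton.elim i 0]
    · intro n _
      rfl
    · intro ν _
      congr 2
      funext i
      rw [Subsingleton.elim i 0]
  rw [e0, range_eq_Ico, ← sum_subset (s₁ := Ico 1 q)]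
  · refine sum_congr rfl fun n hn => ?_
    rw [mem_Ico] at hn
    have h1 : ∀ i, ¬ (q : ℤ) ∣ MvPolynomial.eval (fun _ : Fin 1 => (n : ℤ)) (fX i) := by
      intro i hi
      unfold fX at hi
      rw [MvPolynomial.eval_X, Int.natCast_dvd_natCast] at hi
      exact absurd (Nat.le_of_dvd hn.1 hi) (not_le.2 hn.2)
    unfold localWeight
    rw [if_pos h1, gen_fX, weight_wS]
    split_ifs
    · exact one_pow k
    · exact zero_pow hk.ne'
  · exact Ico_subset_Ico_left (Nat.zero_le 1)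
  · intro n hn hn'
    have h0 : n = 0 := by
      rw [mem_Ico] at hn hn'
      omega
    unfold localWeight
    rw [if_neg, zero_pow hk.ne']
    intro h1
    apply h1 0
    unfold fX
    rw [MvPolynomial.eval_X, h0]
    simp

lemma modelMean_fX (S : ℕ → ℕ → Prop) (W₀ : Subgroup ℚˣ) (x : ℕ) :
    modelMean (wS S) W₀ fX x = ∑ q ∈ (range (x + 1)).filter Nat.Prime, dens S W₀ q :=
  sum_congr rfl fun _ hq => average_fX S W₀ (mem_filter.1 hq).2 one_pos

lemma modelVariance_fX (S : ℕ → ℕ → Prop) (W₀ : Subgroup ℚˣ) (x : ℕ) :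
    modelVariance (wS S) W₀ fX x =
      ∑ q ∈ (range (x + 1)).filter Nat.Prime, dens S W₀ q * (1 - dens S W₀ q) := by
  refine sum_congr rfl fun q hq => ?_
  rw [average_fX S W₀ (mem_filter.1 hq).2 two_pos, average_fX S W₀ (mem_filter.1 hq).2 one_pos]
  ring

/-- the reduction of `⟨W₀, n⟩` is everything if `n` is a primitive root modulo `q` -/
lemma exists_top {q : ℕ} (hq : q.Prime) (W₀ : Subgroup ℚˣ)
    (hW : ∀ u ∈ W₀, padicValRat q (u : ℚ) = 0) :
    ∃ n ∈ Ico 1 q, (∀ u ∈ gen1 W₀ (n : ℤ), padicValRat q (u : ℚ) = 0) ∧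
      (reduction (gen1 W₀ (n : ℤ)) q).index = 1 := by
  have : Fact q.Prime := ⟨hq⟩
  obtain ⟨g, hg⟩ := IsCyclic.exists_generator (α := (ZMod q)ˣ)
  have h1 : (((g : ZMod q).val : ℤ) : ZMod q) = (g : ZMod q) := by
    rw [Int.cast_natCast, ZMod.natCast_val, ZMod.cast_id', id_eq]
  have hlt : (g : ZMod q).val < q := ZMod.val_lt _
  have hpos : (g : ZMod q).val ≠ 0 := by
    rw [Ne, ZMod.val_eq_zero]
    exact g.ne_zero
  have h2 : ∀ i : Unit, ¬ (q : ℤ) ∣ (fun _ : Unit => ((g : ZMod q).val : ℤ)) i := by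
    intro _ hi
    have := Nat.le_of_dvd (Nat.pos_of_ne_zero hpos) (Int.natCast_dvd_natCast.1 hi)
    omega
  have e : gen W₀ (fun _ : Unit => ((g : ZMod q).val : ℤ)) = gen1 W₀ (((g : ZMod q).val : ℕ) : ℤ) := by
    unfold gen gen1
    congr 2
    ext u
    simp
  refine ⟨(g : ZMod q).val, mem_Ico.2 ⟨Nat.one_le_iff_ne_zero.2 hpos, hlt⟩, ?_, ?_⟩
  · rw [← e]
    exact (gen_val W₀ _ h2).2 hW
  · rw [← e, reduction_gen W₀ _ h2 hW, Subgroup.index_eq_one, eq_top_iff]
    intro u _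
    refine Subgroup.mem_sup_right ?_
    have h3 : g ∈ Subgroup.closure {u : (ZMod q)ˣ | ∃ _ : Unit,
        (u : ZMod q) = (((g : ZMod q).val : ℤ) : ZMod q)} :=
      Subgroup.subset_closure ⟨(), h1.symm⟩
    exact (Subgroup.zpowers_le.2 h3) (hg u)

lemma dens_nonneg (S : ℕ → ℕ → Prop) (W₀ : Subgroup ℚˣ) (q : ℕ) : 0 ≤ dens S W₀ q := by
  unfold dens
  positivity

lemma dens_le (S : ℕ → ℕ → Prop) (W₀ : Subgroup ℚˣ) {q : ℕ} (hq : q.Prime) :
    dens S W₀ q ≤ 1 - 1 / q := by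
  classical
  unfold dens
  have h0 : (0 : ℝ) < q := by exact_mod_cast hq.pos
  rw [div_le_iff₀ h0, sub_mul, one_div, inv_mul_cancel₀ h0.ne', one_mul]
  have h1 : ((Ico 1 q).filter fun n : ℕ => Cond S (gen1 W₀ n) q).card ≤ q - 1 := by
    refine (card_filter_le _ _).trans ?_
    rw [Nat.card_Ico]
  have h2 : ((q - 1 : ℕ) : ℝ) = (q : ℝ) - 1 := by
    rw [Nat.cast_sub hq.one_lt.le, Nat.cast_one]
  rw [← h2]
  exact_mod_cast h1

lemma dens_ge {S : ℕ → ℕ → Prop} {W₀ : Subgroup ℚˣ} {q : ℕ} (hq : q.Prime)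
    (hW : ∀ u ∈ W₀, padicValRat q (u : ℚ) = 0) (hS : S q 1) : 1 / (q : ℝ) ≤ dens S W₀ q := by
  classical
  unfold dens
  refine div_le_div_of_nonneg_right ?_ (Nat.cast_nonneg q)
  obtain ⟨n, hn, h1, h2⟩ := exists_top hq W₀ hW
  have : 0 < ((Ico 1 q).filter fun n : ℕ => Cond S (gen1 W₀ n) q).card := by
    rw [card_pos]
    exact ⟨n, mem_filter.2 ⟨hn, h1, by rw [h2]; exact hS⟩⟩
  exact_mod_cast this

lemma var_ge {S : ℕ → ℕ → Prop} {W₀ : Subgroup ℚˣ} {q : ℕ} (hq : q.Prime)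
    (hW : ∀ u ∈ W₀, padicValRat q (u : ℚ) = 0) (hS : S q 1) :
    1 / (2 * (q : ℝ)) ≤ dens S W₀ q * (1 - dens S W₀ q) := by
  have h1 := dens_ge hq hW hS
  have h2 := dens_le S W₀ hq
  have h3 : (2 : ℝ) ≤ q := by exact_mod_cast hq.two_le
  have h4 : 1 / (q : ℝ) ≤ 1 / 2 := one_div_le_one_div_of_le (by norm_num) h3
  have h5 : 1 / (2 * (q : ℝ)) = 1 / 2 * (1 / q) := by
    rw [one_div_mul_one_div]
  rw [h5]
  have h6 : (0 : ℝ) ≤ 1 / q := by positivity
  have h7 := mul_nonneg (sub_nonneg.2 h1) (sub_nonneg.2 h2)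
  have h8 := mul_nonneg h6 (sub_nonneg.2 h4)
  nlinarith [h7, h8]

lemma var_nonneg (S : ℕ → ℕ → Prop) (W₀ : Subgroup ℚˣ) {q : ℕ} (hq : q.Prime) :
    0 ≤ dens S W₀ q * (1 - dens S W₀ q) := by
  refine mul_nonneg (dens_nonneg S W₀ q) ?_
  have := dens_le S W₀ hq
  have h0 : (0 : ℝ) ≤ 1 / q := by positivity
  linarith

open Classical in
/-- the sum of `1/q` over the primes `q ≤ x` for which `W₀` consists of units and the index `1` has the
property `S` -/
noncomputable def mass (S : ℕ → ℕ → Prop) (W₀ : Subgroup ℚˣ) (x : ℕ) : ℝ :=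
  ∑ q ∈ (range (x + 1)).filter (fun q => q.Prime ∧ (∀ u ∈ W₀, padicValRat q (u : ℚ) = 0) ∧ S q 1),
    1 / (q : ℝ)

lemma variance_ge (S : ℕ → ℕ → Prop) (W₀ : Subgroup ℚˣ) (x : ℕ) :
    mass S W₀ x / 2 ≤ modelVariance (wS S) W₀ fX x := by
  classical
  rw [modelVariance_fX]
  unfold mass
  rw [sum_div, ← filter_filter]
  refine (sum_le_sum fun q hq => ?_).trans (sum_le_sum_of_subset_of_nonneg (filter_subset _ _) ?_)
  · rw [mem_filter, mem_filter] at hq
    have := var_ge hq.1.2 hq.2.1 hq.2.2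
    rw [div_div, mul_comm]
    exact this
  · intro q hq _
    exact var_nonneg S W₀ (mem_filter.1 hq).2

lemma mass_le (S : ℕ → ℕ → Prop) (W₀ : Subgroup ℚˣ) (x : ℕ) : mass S W₀ x ≤ x := by
  classical
  unfold mass
  have h1 : ((range (x + 1)).filter (fun q => q.Prime ∧
      (∀ u ∈ W₀, padicValRat q (u : ℚ) = 0) ∧ S q 1)).card ≤ x := by
    calc _ ≤ (Icc 1 x).card := by
          refine card_le_card fun q hq => ?_
          rw [mem_filter, mem_range] at hq
          rw [mem_Icc]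
          exact ⟨hq.2.1.one_lt.le, by omega⟩
      _ = x := by rw [Nat.card_Icc, Nat.add_sub_cancel]
  calc _ ≤ ∑ q ∈ (range (x + 1)).filter (fun q => q.Prime ∧
      (∀ u ∈ W₀, padicValRat q (u : ℚ) = 0) ∧ S q 1), (1 : ℝ) := by
        refine sum_le_sum fun q hq => ?_
        rw [mem_filter] at hq
        rw [div_le_one (by exact_mod_cast hq.2.1.pos)]
        exact_mod_cast hq.2.1.one_lt.le
    _ ≤ x := by
        rw [sum_const, nsmul_eq_mul, mul_one]
        exact_mod_cast h1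

open Classical in
/-- the proportion of the integers `m ≤ n < m + L` with the property `P` -/
noncomputable def share (m : ℤ) (L : ℕ) (P : ℤ → Prop) : ℝ :=
  (((Ico m (m + L)).filter P).card : ℝ) / L

theorem law_one (ε : ℝ) (hε : 0 < ε) : ∃ (V₁ : ℝ) (K : ℕ), ∀ (W₀ : Subgroup ℚˣ)
    (S : ℕ → ℕ → Prop) (x : ℕ), V₁ ≤ mass S W₀ x → ∀ (m : ℤ) (L : ℕ), (x : ℝ) ^ K ≤ L → ∀ y : ℝ,
      |share m L (fun n => (cnt S (gen1 W₀ n) x : ℝ) ≤
        (∑ q ∈ (range (x + 1)).filter Nat.Prime, dens S W₀ q) + y * Real.sqrt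
          (∑ q ∈ (range (x + 1)).filter Nat.Prime, dens S W₀ q * (1 - dens S W₀ q))) - Phi y| ≤ ε := by
  classical
  obtain ⟨V₀, C₀, K, hV₀, hC₀, h⟩ := law (ε / 2) (half_pos hε)
  refine ⟨2 * V₀ + 2 * C₀ + 2 / ε + 1, K + 1, ?_⟩
  intro W₀ S x hx m L hL y
  have hxx := hx.trans (mass_le S W₀ x)
  have hε' : 0 < 2 / ε := by positivity
  have hx1 : (1 : ℝ) ≤ x := by linarith
  have hxC : 2 * C₀ ≤ x := by linarith
  have hxε : 2 / ε ≤ x := by linarith
  have hV : V₀ ≤ modelVariance (wS S) W₀ fX x := by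
    have := variance_ge S W₀ x
    linarith
  have hLx : (x : ℝ) ≤ L := by
    refine le_trans ?_ hL
    calc (x : ℝ) = x ^ 1 := (pow_one _).symm
      _ ≤ x ^ (K + 1) := pow_le_pow_right₀ hx1 (by omega)
  have hL0 : (0 : ℝ) < L := by linarith
  have key := h 1 1 fX W₀ (wS S) (fun q j => by
      unfold wS
      split_ifs <;> simp) x hV (fun _ => m) (fun _ => L) (fun _ => by
        refine le_trans ?_ hL
        have h1 : (0 : ℝ) ≤ (x : ℝ) ^ K := by positivity
        calc C₀ * (((1 : ℕ) : ℝ) + 1) * (x : ℝ) ^ K = (2 * C₀) * x ^ K := by push_cast; ring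
          _ ≤ x * x ^ K := mul_le_mul_of_nonneg_right hxC h1
          _ = x ^ (K + 1) := by ring) y
  rw [modelMean_fX, modelVariance_fX] at key
  set T : ℝ := (∑ q ∈ (range (x + 1)).filter Nat.Prime, dens S W₀ q) + y * Real.sqrt
    (∑ q ∈ (range (x + 1)).filter Nat.Prime, dens S W₀ q * (1 - dens S W₀ q)) with hT
  -- compare the two proportions
  have hcmp : |share m L (fun n => (cnt S (gen1 W₀ n) x : ℝ) ≤ T) -
      proportion (fun _ : Fin 1 => m) (fun _ => L) (fun ν => total (wS S) W₀ fX x ν ≤ T)| ≤ ε / 2 := by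
    unfold share proportion
    rw [Fin.prod_univ_one, ← sub_div, abs_div, abs_of_pos hL0, div_le_iff₀ hL0]
    have e1 : ((box (fun _ : Fin 1 => m) (fun _ => L)).filter
        fun ν => total (wS S) W₀ fX x ν ≤ T).card =
        ((Ico m (m + L)).filter fun n => total (wS S) W₀ fX x (fun _ => n) ≤ T).card := by
      refine card_nbij' (fun ν => ν 0) (fun n _ => n) ?_ ?_ ?_ ?_
      · intro ν hν
        rw [mem_coe, mem_filter] at hν ⊢
        refine ⟨Fintype.mem_piFinset.1 hν.1 0, ?_⟩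
        have e2 : (fun _ : Fin 1 => ν 0) = ν := by
          funext i
          rw [Subsingleton.elim i 0]
        rw [e2]
        exact hν.2
      · intro n hn
        rw [mem_coe, mem_filter] at hn ⊢
        exact ⟨Fintype.mem_piFinset.2 fun _ => hn.1, hn.2⟩
      · intro ν _
        funext i
        simp only
        rw [Subsingleton.elim i 0]
      · intro n _
        rfl
    rw [e1]
    have e3 : ∀ A B : Finset ℤ, (∀ n, n ≠ 0 → (n ∈ A ↔ n ∈ B)) →
        |(A.card : ℝ) - (B.card : ℝ)| ≤ 1 := by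
      have aux : ∀ A B : Finset ℤ, (∀ n, n ≠ 0 → (n ∈ A ↔ n ∈ B)) → A.card ≤ B.card + 1 := by
        intro A B hAB
        calc A.card ≤ (insert 0 B).card := by
              refine card_le_card fun n hn => ?_
              rw [mem_insert]
              by_cases h0 : n = 0
              · exact Or.inl h0
              · exact Or.inr ((hAB n h0).1 hn)
          _ ≤ B.card + 1 := card_insert_le _ _
      intro A B hAB
      have h1 := aux A B hAB
      have h2 := aux B A (fun n hn => (hAB n hn).symm)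
      rw [abs_le]
      constructor
      · have : (B.card : ℝ) ≤ A.card + 1 := by exact_mod_cast h2
        linarith
      · have : (A.card : ℝ) ≤ B.card + 1 := by exact_mod_cast h1
        linarith
    refine (e3 _ _ ?_).trans ?_
    · intro n hn
      rw [mem_filter, mem_filter, total_fX S W₀ x (fun _ => n) hn]
    · calc (1 : ℝ) = ε / 2 * (2 / ε) := by field_simp
        _ ≤ ε / 2 * L := mul_le_mul_of_nonneg_left (hxε.trans hLx) (by positivity)
  calc |share m L (fun n => (cnt S (gen1 W₀ n) x : ℝ) ≤ T) - Phi y| ≤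
        |share m L (fun n => (cnt S (gen1 W₀ n) x : ℝ) ≤ T) -
          proportion (fun _ : Fin 1 => m) (fun _ => L) (fun ν => total (wS S) W₀ fX x ν ≤ T)| +
        |proportion (fun _ : Fin 1 => m) (fun _ => L) (fun ν => total (wS S) W₀ fX x ν ≤ T) -
          Phi y| := abs_sub_le _ _ _
    _ ≤ ε / 2 + ε / 2 := add_le_add hcmp key
    _ = ε := add_halves ε

end Pool.Agent.Q285.GL
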