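import Mathlib

/-!
Reduction modulo a prime of the group generated by a group of rational numbers and integers.
-/

set_option autoImplicit false

namespace Pool.Agent.Q285.GL

/-- the reduction of `W` modulo `q` -/
def reduction (W : Subgroup ℚˣ) (q : ℕ) : Subgroup (ZMod q)ˣ :=
  Subgroup.closure {u : (ZMod q)ˣ | ∃ w ∈ W,
    (((w : ℚ).num : ℤ) : ZMod q) = (u : ZMod q) * (((w : ℚ).den : ℕ) : ZMod q)}

lemma val_iff {p : ℕ} [hp : Fact p.Prime] (w : ℚˣ) : padicValRat p (w : ℚ) = 0 ↔
    (((w : ℚ).num : ℤ) : ZMod p) ≠ 0 ∧ (((w : ℚ).den : ℕ) : ZMod p) ≠ 0 := by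
  rw [Ne, Ne, ZMod.intCast_zmod_eq_zero_iff_dvd, ZMod.natCast_eq_zero_iff, padicValRat_def]
  have hn : (w : ℚ).num ≠ 0 := Rat.num_ne_zero.2 w.ne_zero
  have hd : (w : ℚ).den ≠ 0 := (w : ℚ).den_ne_zero
  have h1 : (padicValInt p (w : ℚ).num = 0) ↔ ¬ (p : ℤ) ∣ (w : ℚ).num := by
    rw [padicValInt.eq_zero_iff]
    constructor
    · rintro (h | h | h)
      · exact absurd h hp.out.one_lt.ne'
      · exact absurd h hn
      · exact h
    · intro h
      exact Or.inr (Or.inr h)
  have h2 : (padicValNat p (w : ℚ).den = 0) ↔ ¬ p ∣ (w : ℚ).den := by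
    rw [padicValNat.eq_zero_iff]
    constructor
    · rintro (h | h | h)
      · exact absurd h hp.out.one_lt.ne'
      · exact absurd h hd
      · exact h
    · intro h
      exact Or.inr (Or.inr h)
  constructor
  · intro h
    have h3 : (padicValInt p (w : ℚ).num : ℤ) = padicValNat p (w : ℚ).den := by linarith
    have h3' : padicValInt p (w : ℚ).num = padicValNat p (w : ℚ).den := by exact_mod_cast h3
    have hcop : Nat.Coprime (w : ℚ).num.natAbs (w : ℚ).den := (w : ℚ).reduced
    by_cases h4 : (p : ℤ) ∣ (w : ℚ).num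
    · exfalso
      have h5 : ¬ p ∣ (w : ℚ).den := by
        intro h6
        have h7 := Nat.dvd_gcd (Int.natCast_dvd.1 h4) h6
        rw [hcop] at h7
        exact hp.out.one_lt.ne' (Nat.dvd_one.1 h7)
      rw [← h2, ← h3', h1] at h5
      exact h5 h4
    · refine ⟨h4, ?_⟩
      rw [← h1, h3', h2] at h4
      exact h4
  · rintro ⟨a, b⟩
    rw [h1.2 a, h2.2 b]
    simp

lemma val_closure {S : Set ℚˣ} {p : ℕ} [hp : Fact p.Prime] (h : ∀ w ∈ S, padicValRat p (w : ℚ) = 0) :
    ∀ w ∈ Subgroup.closure S, padicValRat p (w : ℚ) = 0 := by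
  intro w hw
  induction hw using Subgroup.closure_induction with
  | mem w hw => exact h w hw
  | one => simp
  | mul a b _ _ iha ihb =>
    rw [Units.val_mul, padicValRat.mul a.ne_zero b.ne_zero, iha, ihb, add_zero]
  | inv a _ iha =>
    rw [Units.val_inv_eq_inv_val, padicValRat.inv, iha, neg_zero]

section

variable (W₀ : Subgroup ℚˣ) {ι : Type*} (a : ι → ℤ)

/-- the group generated by `W₀` and the integers `a i` (those which are not zero) -/
def gen : Subgroup ℚˣ := W₀ ⊔ Subgroup.closure {u : ℚˣ | ∃ i, (u : ℚ) = (a i : ℚ)}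

lemma gen_eq : gen W₀ a = Subgroup.closure ((W₀ : Set ℚˣ) ∪ {u : ℚˣ | ∃ i, (u : ℚ) = (a i : ℚ)}) := by
  rw [gen, Subgroup.closure_union, Subgroup.closure_eq]

lemma gen_val {p : ℕ} [hp : Fact p.Prime] (h : ∀ i, ¬ (p : ℤ) ∣ a i) :
    (∀ u ∈ gen W₀ a, padicValRat p (u : ℚ) = 0) ↔ ∀ u ∈ W₀, padicValRat p (u : ℚ) = 0 := by
  constructor
  · intro h1 u hu
    exact h1 u (Subgroup.mem_sup_left hu)
  · intro h1
    rw [gen_eq]
    refine val_closure ?_
    rintro w (hw | ⟨i, hw⟩)
    · exact h1 w hw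
    · rw [hw, padicValRat.of_int]
      have := h i
      simp only [Nat.cast_eq_zero, padicValInt.eq_zero_iff]
      exact Or.inr (Or.inr this)

/-- if one of the integers is divisible by `p` and not zero, `gen` is not a group of `p`-units -/
lemma gen_not_val {p : ℕ} [hp : Fact p.Prime] (h0 : ∀ i, a i ≠ 0)
    (h : ∀ u ∈ gen W₀ a, padicValRat p (u : ℚ) = 0) (i : ι) : ¬ (p : ℤ) ∣ a i := by
  have h1 : Units.mk0 ((a i : ℤ) : ℚ) (by exact_mod_cast h0 i) ∈ gen W₀ a :=
    Subgroup.mem_sup_right (Subgroup.subset_closure ⟨i, rfl⟩)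
  have h2 := h _ h1
  rw [Units.val_mk0, padicValRat.of_int] at h2
  simp only [Nat.cast_eq_zero, padicValInt.eq_zero_iff] at h2
  rcases h2 with h2 | h2 | h2
  · exact absurd h2 hp.out.one_lt.ne'
  · exact absurd h2 (h0 i)
  · exact h2

/-- the reduction of `gen` -/
lemma reduction_gen {p : ℕ} [hp : Fact p.Prime] (h : ∀ i, ¬ (p : ℤ) ∣ a i)
    (hW : ∀ u ∈ W₀, padicValRat p (u : ℚ) = 0) :
    reduction (gen W₀ a) p =
      reduction W₀ p ⊔ Subgroup.closure {u : (ZMod p)ˣ | ∃ i, (u : ZMod p) = (a i : ZMod p)} := by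
  have hU := (gen_val W₀ a h).2 hW
  apply le_antisymm
  · unfold reduction
    rw [Subgroup.closure_le]
    -- every element of `gen` reduces into the right side
    have key : ∀ w ∈ gen W₀ a, ∃ u ∈ (reduction W₀ p ⊔
        Subgroup.closure {u : (ZMod p)ˣ | ∃ i, (u : ZMod p) = (a i : ZMod p)}),
        (((w : ℚ).num : ℤ) : ZMod p) = (u : ZMod p) * (((w : ℚ).den : ℕ) : ZMod p) := by
      intro w hw
      have hw' := hw
      rw [gen_eq] at hw
      induction hw using Subgroup.closure_induction with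
      | mem w hw =>
        rcases hw with hw | ⟨i, hw⟩
        · obtain ⟨h1, h2⟩ := (val_iff w).1 (hW w hw)
          refine ⟨Units.mk0 _ h1 * (Units.mk0 _ h2)⁻¹, ?_, ?_⟩
          · refine Subgroup.mem_sup_left (Subgroup.subset_closure ⟨w, hw, ?_⟩)
            push_cast
            rw [Units.val_mk0, Units.val_mk0, mul_assoc, inv_mul_cancel₀ h2, mul_one]
          · push_cast
            rw [Units.val_mk0, Units.val_mk0, mul_assoc, inv_mul_cancel₀ h2, mul_one]
        · have h1 : ((a i : ℤ) : ZMod p) ≠ 0 := by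
            rw [Ne, ZMod.intCast_zmod_eq_zero_iff_dvd]
            exact h i
          refine ⟨Units.mk0 _ h1, Subgroup.mem_sup_right (Subgroup.subset_closure ⟨i, rfl⟩), ?_⟩
          rw [hw]
          simp
      | one => exact ⟨1, one_mem _, by simp⟩
      | mul x y hx hy ihx ihy =>
        have hx' : x ∈ gen W₀ a := by rw [gen_eq]; exact hx
        have hy' : y ∈ gen W₀ a := by rw [gen_eq]; exact hy
        obtain ⟨u, hu, h1⟩ := ihx hx'
        obtain ⟨v, hv, h2⟩ := ihy hy'
        refine ⟨u * v, mul_mem hu hv, ?_⟩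
        have h3 := (val_iff x).1 (hU x hx')
        have h4 := (val_iff y).1 (hU y hy')
        have h5 : (((x : ℚ) * (y : ℚ)).num : ZMod p) * ((x : ℚ).den * (y : ℚ).den : ZMod p) =
            ((x : ℚ).num * (y : ℚ).num : ZMod p) * (((x : ℚ) * (y : ℚ)).den : ZMod p) := by
          have := Rat.mul_num_den' (x : ℚ) (y : ℚ)
          have h6 := congrArg (Int.cast : ℤ → ZMod p) this
          push_cast at h6
          linear_combination h6
        rw [Units.val_mul]
        have h7 : ((x : ℚ).den * (y : ℚ).den : ZMod p) ≠ 0 := mul_ne_zero h3.2 h4.2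
        refine mul_right_cancel₀ h7 ?_
        rw [h5, h1, h2]
        push_cast
        ring
      | inv x hx ih =>
        have hx' : x ∈ gen W₀ a := by rw [gen_eq]; exact hx
        obtain ⟨u, hu, h1⟩ := ih hx'
        refine ⟨u⁻¹, inv_mem hu, ?_⟩
        have h3 := (val_iff x).1 (hU x hx')
        have h5 : ((((x : ℚ)⁻¹).num : ℤ) : ZMod p) * ((x : ℚ).num : ZMod p) =
            (((x : ℚ)⁻¹).den : ZMod p) * ((x : ℚ).den : ZMod p) := by
          have h6 : (((x : ℚ)⁻¹).num : ℚ) * ((x : ℚ).num : ℚ) = (((x : ℚ)⁻¹).den : ℚ) * ((x : ℚ).den : ℚ) := by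
            have a1 : (((x : ℚ)⁻¹).num : ℚ) = (x : ℚ)⁻¹ * (((x : ℚ)⁻¹).den : ℚ) :=
              (Rat.mul_den_eq_num _).symm
            have a2 : ((x : ℚ).num : ℚ) = (x : ℚ) * ((x : ℚ).den : ℚ) := (Rat.mul_den_eq_num _).symm
            have a3 : (x : ℚ) ≠ 0 := x.ne_zero
            rw [a1, a2]
            field_simp
          have h7 : ((x : ℚ)⁻¹).num * (x : ℚ).num = (((x : ℚ)⁻¹).den : ℤ) * ((x : ℚ).den : ℤ) := by
            exact_mod_cast h6
          have h8 := congrArg (Int.cast : ℤ → ZMod p) h7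
          push_cast at h8
          exact h8
        rw [Units.val_inv_eq_inv_val]
        refine mul_right_cancel₀ h3.1 ?_
        rw [h5]
        have h9 : ((u⁻¹ : (ZMod p)ˣ) : ZMod p) * (u : ZMod p) = 1 := u.inv_mul
        rw [h1]
        linear_combination (-(((x : ℚ)⁻¹).den : ZMod p) * ((x : ℚ).den : ZMod p)) * h9
    rintro u ⟨w, hw, h1⟩
    obtain ⟨v, hv, h2⟩ := key w hw
    have h3 := (val_iff w).1 (hU w hw)
    have h4 : u = v := by
      ext
      exact mul_right_cancel₀ h3.2 (h1.symm.trans h2)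
    rw [h4]
    exact hv
  · refine sup_le ?_ ?_
    · unfold reduction
      refine Subgroup.closure_mono ?_
      rintro u ⟨w, hw, h1⟩
      exact ⟨w, Subgroup.mem_sup_left hw, h1⟩
    · unfold reduction
      refine Subgroup.closure_mono ?_
      rintro u ⟨i, hu⟩
      have h0 : a i ≠ 0 := fun h0 => h i (by rw [h0]; exact dvd_zero _)
      refine ⟨Units.mk0 ((a i : ℤ) : ℚ) (by exact_mod_cast h0),
        Subgroup.mem_sup_right (Subgroup.subset_closure ⟨i, rfl⟩), ?_⟩
      rw [Units.val_mk0, hu]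
      simp

end

end Pool.Agent.Q285.GL
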